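import Pool.Agent.H28.LF.F1

/-!
Project LF, row YSQ: squares of primes on the `y`-side.
-/

set_option autoImplicit false

open MeasureTheory ProbabilityTheory Filter Topology Finset
open scoped Nat ENNReal

namespace Pool.Agent.H57.LF

open Pool.Agent.H28.LF
open Pool.Agent.H24.MR (lam FinAddInv)
open Pool.Agent.H28.MCL (ldB Aw)

lemma ysq_pt (τ : ℕ → ℕ → Bool) (n : ℕ) : ptS (lY τ) n 0 = lY τ n := by
  simp [ptS]

lemma ysq_cont_bt : Continuous (fun ω : Yi => (ω 0).1.2) :=
  continuous_snd.comp (continuous_fst.comp (continuous_apply 0))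

lemma ysq_cont_fl (d : ℕ) : Continuous (fun ω : Yi => (ω 0).2.1 d) :=
  (continuous_apply d).comp (continuous_fst.comp (continuous_snd.comp (continuous_apply 0)))

lemma ysq_clopen_bt (b : Bool) : IsClopen {ω : Yi | (btY ω).2 = b} :=
  (isClopen_discrete {b}).preimage ysq_cont_bt

lemma ysq_clopen_fl (d : ℕ) : IsClopen (flY d) :=
  (isClopen_discrete {true}).preimage (ysq_cont_fl d)

open Classical in
lemma ysq_count (w : ℕ) (hw : 0 < w) (n : ℕ) :
    (((Finset.range n).filter (fun m => m ∈ {m : ℕ | ArithmeticFunction.moebius m = 0 ∧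
      ∀ p ∈ (Finset.range (w + 1)).filter Nat.Prime, ¬ p ^ 2 ∣ m})).card : ℝ) ≤
      (1 / w : ℝ) * n + 1 + 0 * Real.sqrt n := by
  have hsub : (Finset.range n).filter (fun m => m ∈ {m : ℕ | ArithmeticFunction.moebius m = 0 ∧
      ∀ p ∈ (Finset.range (w + 1)).filter Nat.Prime, ¬ p ^ 2 ∣ m}) ⊆
      {0} ∪ (Finset.Ioc w n).biUnion (fun d => (Finset.Ioc 0 n).filter (fun x => d ^ 2 ∣ x)) := by
    intro m hm
    rw [Finset.mem_filter, Finset.mem_range, Set.mem_ofPred_eq] at hm
    obtain ⟨hmn, hmu, hp⟩ := hm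
    rw [Finset.mem_union, Finset.mem_singleton]
    by_cases h0 : m = 0
    · left; exact h0
    right
    have hns : ¬ Squarefree m := by
      rw [← ArithmeticFunction.moebius_ne_zero_iff_squarefree]
      simpa using hmu
    rw [Nat.squarefree_iff_prime_squarefree] at hns
    push Not at hns
    obtain ⟨p, hpp, hpd⟩ := hns
    rw [← pow_two] at hpd
    have hpw : w < p := by
      by_contra hcon
      exact hp p (Finset.mem_filter.2 ⟨Finset.mem_range.2 (by omega), hpp⟩) hpd
    have hpm : p ^ 2 ≤ m := Nat.le_of_dvd (Nat.pos_of_ne_zero h0) hpd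
    have hpm' : p ≤ m := le_trans (Nat.le_self_pow (by norm_num) p) hpm
    rw [Finset.mem_biUnion]
    refine ⟨p, Finset.mem_Ioc.2 ⟨hpw, by omega⟩, Finset.mem_filter.2
      ⟨Finset.mem_Ioc.2 ⟨Nat.pos_of_ne_zero h0, by omega⟩, hpd⟩⟩
  have h1 : (((Finset.range n).filter (fun m => m ∈ {m : ℕ | ArithmeticFunction.moebius m = 0 ∧
      ∀ p ∈ (Finset.range (w + 1)).filter Nat.Prime, ¬ p ^ 2 ∣ m})).card : ℝ) ≤
      1 + ∑ d ∈ Finset.Ioc w n, (n : ℝ) * ((d : ℝ) ^ 2)⁻¹ := by
    have h2 := Finset.card_le_card hsub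
    have h3 := h2.trans (Finset.card_union_le _ _)
    have h4 := Finset.card_biUnion_le (s := Finset.Ioc w n)
      (t := fun d => (Finset.Ioc 0 n).filter (fun x => d ^ 2 ∣ x))
    rw [Finset.card_singleton] at h3
    have h5 : (((Finset.Ioc w n).biUnion
        (fun d => (Finset.Ioc 0 n).filter (fun x => d ^ 2 ∣ x))).card : ℝ) ≤
        ∑ d ∈ Finset.Ioc w n, (n : ℝ) * ((d : ℝ) ^ 2)⁻¹ := by
      refine le_trans (Nat.cast_le.2 h4) ?_
      rw [Nat.cast_sum]
      refine Finset.sum_le_sum fun d hd => ?_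
      rw [Nat.Ioc_filter_dvd_card_eq_div]
      refine le_trans Nat.cast_div_le ?_
      rw [div_eq_mul_inv]
      push_cast
      exact le_refl _
    have h6 : (((Finset.range n).filter (fun m => m ∈ {m : ℕ | ArithmeticFunction.moebius m = 0 ∧
      ∀ p ∈ (Finset.range (w + 1)).filter Nat.Prime, ¬ p ^ 2 ∣ m})).card : ℝ) ≤
        1 + (((Finset.Ioc w n).biUnion
        (fun d => (Finset.Ioc 0 n).filter (fun x => d ^ 2 ∣ x))).card : ℝ) := by
      exact_mod_cast h3
    linarith
  have h7 : ∑ d ∈ Finset.Ioc w n, ((d : ℝ) ^ 2)⁻¹ ≤ 1 / w := by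
    rcases le_or_gt w n with hwn | hwn
    · have := sum_Ioc_inv_sq_le_sub (α := ℝ) hw.ne' hwn
      rw [one_div]
      refine le_trans this ?_
      have : (0 : ℝ) ≤ (n : ℝ)⁻¹ := by positivity
      linarith
    · rw [Finset.Ioc_eq_empty (by omega)]
      simp
  rw [← Finset.mul_sum] at h1
  have h8 := mul_le_mul_of_nonneg_left h7 (Nat.cast_nonneg (α := ℝ) n)
  nlinarith

/-- YSQ: squares of primes. -/
theorem pf_YSQ (hL : Pool.Agent.H28.MCL.T_LDB) (hC : Pool.Agent.H28.MCL.T_LDC) : T_YSQ := by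
  classical
  intro U x y τ P hA hP
  have := hP.prob
  have h0 : ldB U x y ∅ = 0 := by
    have h1 := (hL U x y hA).2.2.2.1 ∅ 0 (Filter.Eventually.of_forall fun j => by simp)
    have h2 := (hL U x y hA).2.2.2.2 ∅ 0 (Filter.Eventually.of_forall fun j => by simp)
    linarith
  -- no letter with both
  have hA1 : ∀ᵐ ω ∂P, ∀ d : ℕ, d.Prime → ω ∈ flY (d ^ 2) → (btY ω).2 = false := by
    rw [ae_all_iff]
    intro d
    by_cases hd : d.Prime
    · have hcl : IsClopen ({ω : Yi | (btY ω).2 = true} ∩ flY (d ^ 2)) :=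
        (ysq_clopen_bt true).inter (ysq_clopen_fl _)
      have h1 := hP.clo _ hcl
      have h2 : {n | ptS (lY τ) n ∈ ({ω : Yi | (btY ω).2 = true} ∩ flY (d ^ 2))} = ∅ := by
        ext n
        simp only [Set.mem_ofPred_eq, Set.mem_empty_iff_false, iff_false]
        rintro ⟨h3, h4⟩
        rw [Set.mem_ofPred_eq, btY, ysq_pt] at h3
        rw [flY, Set.mem_ofPred_eq, ysq_pt] at h4
        simp only [lY, lt, decide_eq_true_eq] at h3 h4
        rw [ArithmeticFunction.moebius_ne_zero_iff_squarefree] at h3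
        have h5 := h3 d (by rw [← pow_two]; exact h4)
        exact hd.ne_one (Nat.isUnit_iff.1 h5)
      rw [h2, h0] at h1
      have h3 : P ({ω : Yi | (btY ω).2 = true} ∩ flY (d ^ 2)) = 0 := by
        rwa [measureReal_eq_zero_iff] at h1
      have h4 := measure_eq_zero_iff_ae_notMem.1 h3
      filter_upwards [h4] with ω hω _ hfl
      by_contra hcon
      exact hω ⟨by simpa using hcon, hfl⟩
    · exact Filter.Eventually.of_forall fun ω h => absurd h hd
  -- the other direction
  have hA2 : ∀ᵐ ω ∂P, (btY ω).2 = false → ∃ p : ℕ, p.Prime ∧ ω ∈ flY (p ^ 2) := by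
    set B : Set Yi := {ω | (btY ω).2 = false ∧ ∀ p : ℕ, p.Prime → ω ∉ flY (p ^ 2)} with hB
    have hBw : ∀ w : ℕ, 0 < w → P.real B ≤ 1 / w := by
      intro w hw
      set S : Finset ℕ := (Finset.range (w + 1)).filter Nat.Prime with hS
      set C : Set Yi := {ω : Yi | (btY ω).2 = false} ∩ ⋂ p ∈ S, (flY (p ^ 2))ᶜ with hCdef
      have hcl : IsClopen C :=
        (ysq_clopen_bt false).inter (isClopen_biInter_finset fun p _ => (ysq_clopen_fl _).compl)
      have h1 := hP.clo _ hcl
      have h2 : {n | ptS (lY τ) n ∈ C} = {m : ℕ | ArithmeticFunction.moebius m = 0 ∧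
          ∀ p ∈ (Finset.range (w + 1)).filter Nat.Prime, ¬ p ^ 2 ∣ m} := by
        ext n
        simp only [hCdef, Set.mem_ofPred_eq, Set.mem_inter_iff, Set.mem_iInter, Set.mem_compl_iff,
          btY, flY, ysq_pt, lY, lt, decide_eq_true_eq, decide_eq_false_iff_not, not_not, ← hS]
      rw [h2] at h1
      have h3 := hC U x y hA {m : ℕ | ArithmeticFunction.moebius m = 0 ∧
          ∀ p ∈ (Finset.range (w + 1)).filter Nat.Prime, ¬ p ^ 2 ∣ m} (1 / w : ℝ) 1 0 le_rfl
        (fun n => by convert ysq_count w hw n)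
      have h4 : P.real B ≤ P.real C := by
        refine measureReal_mono ?_
        rintro ω ⟨h5, h6⟩
        refine ⟨h5, ?_⟩
        simp only [Set.mem_iInter, Set.mem_compl_iff]
        intro p hp
        exact h6 p (Finset.mem_filter.1 hp).2
      linarith
    have hB0 : P.real B = 0 := by
      refine le_antisymm ?_ measureReal_nonneg
      refine le_of_forall_pos_lt_add fun ε hε => ?_
      obtain ⟨w, hw⟩ := exists_nat_one_div_lt hε
      have := hBw (w + 1) (Nat.succ_pos w)
      push_cast at this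
      linarith
    have h3 : P B = 0 := by
      rwa [measureReal_eq_zero_iff] at hB0
    have h4 := measure_eq_zero_iff_ae_notMem.1 h3
    filter_upwards [h4] with ω hω hf
    by_contra hcon
    push Not at hcon
    exact hω ⟨hf, hcon⟩
  filter_upwards [hA1, hA2] with ω h1 h2
  exact ⟨h2, fun ⟨p, hp, hfl⟩ => h1 p hp hfl⟩

end Pool.Agent.H57.LF
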